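import Pool.Agent.N728.QG.Def

set_option autoImplicit false

/-! Project QG (helper728), part BOX: the main inequality for fixed parameters. -/

namespace Pool.Agent.N545.QG

open Finset Pool.Agent.N728.QL Filter Topology Pool.Agent.N728.QG

lemma hqg_one_le (κ s : ℕ) (D : ℤ) : 1 ≤ hqg κ s D := by
  unfold hqg
  refine Finset.prod_induction _ (fun x : ℝ => 1 ≤ x)
    (fun a b ha hb => one_le_mul_of_one_le_of_one_le ha hb) le_rfl fun p _ => ?_
  have : (0 : ℝ) ≤ κ / p := by positivity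
  linarith

lemma hqg_mono {κ κ' : ℕ} (h : κ ≤ κ') (s : ℕ) (D : ℤ) : hqg κ s D ≤ hqg κ' s D := by
  unfold hqg
  refine prod_le_prod (fun p _ => by positivity) fun p _ => ?_
  have : (κ : ℝ) ≤ κ' := by exact_mod_cast h
  gcongr

lemma core {V : Type} (box : Finset V) (Z : V → Prop) [DecidablePred Z] (S hy hz : V → ℝ)
    (N K1 q0 Pw Q L Ay Az c0 W : ℝ) (hN : 0 ≤ N) (hK1 : 0 ≤ K1) (hq0 : 0 ≤ q0)
    (hPw : 0 ≤ Pw) (hQ : 0 ≤ Q) (hAy0 : 0 ≤ Ay) (hAz0 : 0 ≤ Az) (hc0 : 0 ≤ c0)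
    (hW : 0 ≤ W) (hz1 : ∀ v, 1 ≤ hz v)
    (h1 : ∀ v ∈ box, ¬ Z v → S v ≤ K1 * N * (hy v ^ 2 * q0 + hy v * (hz v - 1)) + Pw)
    (h0 : ∀ v ∈ box, Z v → S v ≤ N * Q)
    (hAy : ∑ v ∈ box, (if Z v then 0 else hy v ^ 2 - 1) ≤ Ay * W)
    (hAz : ∑ v ∈ box, (if Z v then 0 else hz v ^ 2 - 1) ≤ Az * W)
    (hA0 : ((box.filter Z).card : ℝ) ≤ W / L) (hcard : (box.card : ℝ) ≤ c0 * W) :
    ∑ v ∈ box, S v ≤ (N * (Q / L + K1 * ((c0 + Ay) * q0 + √((c0 + Ay) * Az))) + c0 * Pw) * W := by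
  set e0 : V → ℝ := fun v => if Z v then 1 else 0 with he0
  set g : V → ℝ := fun v => if Z v then 0 else hy v with hg
  set h : V → ℝ := fun v => if Z v then 0 else hz v - 1 with hh
  have hpt : ∀ v ∈ box, S v ≤ N * Q * e0 v + K1 * N * (g v ^ 2 * q0 + g v * h v) + Pw := by
    intro v hv
    by_cases hZ : Z v
    · have a1 : e0 v = 1 := by simp only [he0, hZ, if_true]
      have a2 : g v = 0 := by simp only [hg, hZ, if_true]
      rw [a1, a2]
      have := h0 v hv hZ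
      nlinarith
    · have a1 : e0 v = 0 := by simp only [he0, hZ, if_false]
      have a2 : g v = hy v := by simp only [hg, hZ, if_false]
      have a3 : h v = hz v - 1 := by simp only [hh, hZ, if_false]
      rw [a1, a2, a3]
      have := h1 v hv hZ
      linarith
  have hG : ∑ v ∈ box, g v ^ 2 ≤ (c0 + Ay) * W := by
    have a1 : ∀ v, g v ^ 2 ≤ (if Z v then 0 else hy v ^ 2 - 1) + 1 := by
      intro v
      simp only [hg]
      split_ifs <;> norm_num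
    calc ∑ v ∈ box, g v ^ 2 ≤ ∑ v ∈ box, ((if Z v then 0 else hy v ^ 2 - 1) + 1) :=
          sum_le_sum fun v _ => a1 v
      _ = ∑ v ∈ box, (if Z v then 0 else hy v ^ 2 - 1) + box.card := by
          rw [sum_add_distrib, sum_const, nsmul_eq_mul, mul_one]
      _ ≤ Ay * W + c0 * W := add_le_add hAy hcard
      _ = (c0 + Ay) * W := by ring
  have hH : ∑ v ∈ box, h v ^ 2 ≤ Az * W := by
    have a1 : ∀ v, h v ^ 2 ≤ (if Z v then 0 else hz v ^ 2 - 1) := by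
      intro v
      simp only [hh]
      split_ifs
      · norm_num
      · nlinarith [hz1 v]
    exact (sum_le_sum fun v _ => a1 v).trans hAz
  have hE : ∑ v ∈ box, e0 v ≤ W / L := by
    have : ∑ v ∈ box, e0 v = ((box.filter Z).card : ℝ) := by
      rw [card_filter, Nat.cast_sum]
      refine sum_congr rfl fun v _ => ?_
      simp only [he0]
      split_ifs <;> simp
    rw [this]
    exact hA0
  have hGH : ∑ v ∈ box, g v * h v ≤ √((c0 + Ay) * Az) * W := by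
    refine (Real.sum_mul_le_sqrt_mul_sqrt box g h).trans ?_
    calc √(∑ v ∈ box, g v ^ 2) * √(∑ v ∈ box, h v ^ 2)
        ≤ √((c0 + Ay) * W) * √(Az * W) := by gcongr
      _ = √(((c0 + Ay) * Az) * W ^ 2) := by
          rw [← Real.sqrt_mul (by positivity)]
          congr 1
          ring
      _ = √((c0 + Ay) * Az) * W := by
          rw [Real.sqrt_mul (by positivity), Real.sqrt_sq hW]
  calc ∑ v ∈ box, S v ≤ ∑ v ∈ box, (N * Q * e0 v + K1 * N * (g v ^ 2 * q0 + g v * h v) + Pw) :=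
        sum_le_sum hpt
    _ = N * Q * (∑ v ∈ box, e0 v) + K1 * N * ((∑ v ∈ box, g v ^ 2) * q0 + ∑ v ∈ box, g v * h v) +
          box.card * Pw := by
        rw [sum_add_distrib, sum_add_distrib, sum_const, nsmul_eq_mul, ← mul_sum, ← mul_sum,
          sum_add_distrib, ← sum_mul]
    _ ≤ N * Q * (W / L) + K1 * N * (((c0 + Ay) * W) * q0 + √((c0 + Ay) * Az) * W) + (c0 * W) * Pw := by
        gcongr
    _ = _ := by ring

lemma ev_z (K1 A K2 ε : ℝ) (hε : 0 < ε) :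
    ∀ᶠ z : ℕ in atTop, K1 * (A * (1 / (z : ℝ)) + √(A * (K2 / z))) ≤ ε / 2 := by
  have h1 : Tendsto (fun z : ℕ => 1 / (z : ℝ)) atTop (𝓝 0) := tendsto_const_div_atTop_nhds_zero_nat 1
  have h2 : Tendsto (fun z : ℕ => K2 / (z : ℝ)) atTop (𝓝 0) := tendsto_const_div_atTop_nhds_zero_nat K2
  have h3 : Tendsto (fun z : ℕ => √(A * (K2 / (z : ℝ)))) atTop (𝓝 0) := by
    have h4 := (h2.const_mul A).sqrt
    simpa using h4
  have h4 : Tendsto (fun z : ℕ => K1 * (A * (1 / (z : ℝ)) + √(A * (K2 / z)))) atTop (𝓝 0) := by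
    have h5 := ((h1.const_mul A).add h3).const_mul K1
    simpa using h5
  exact h4.eventually_le_const (by positivity)

lemma pow_half {K1 D Kc k : ℕ} (hK1 : 1 ≤ K1) (hD : 1 ≤ D) (hK : K1 ≤ Kc) :
    (1 / 2 : ℝ) ^ (k / (2 * D * K1)) ≤ 2 * (2 : ℝ) ^ (-((k : ℝ) / (8 * D * Kc))) := by
  have hK1' : (1 : ℝ) ≤ K1 := by exact_mod_cast hK1
  have hD' : (1 : ℝ) ≤ D := by exact_mod_cast hD
  have hK' : (K1 : ℝ) ≤ Kc := by exact_mod_cast hK
  have hk0 : (0 : ℝ) ≤ k := Nat.cast_nonneg k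
  have hpos : 0 < 2 * D * K1 := by positivity
  have hKc : (0 : ℝ) < Kc := by linarith
  set b := k / (2 * D * K1) with hb
  have h1 : k < b * (2 * D * K1) + 2 * D * K1 := Nat.lt_div_mul_add hpos
  have h2 : (k : ℝ) < b * (2 * D * K1) + 2 * D * K1 := by exact_mod_cast h1
  have h3 : (k : ℝ) / (8 * D * Kc) ≤ b + 1 := by
    rw [div_le_iff₀ (by positivity)]
    have h4 : (0 : ℝ) ≤ b := Nat.cast_nonneg b
    have h5 : 2 * (D : ℝ) * K1 ≤ 8 * D * Kc := by
      have : (D : ℝ) * K1 ≤ D * Kc := mul_le_mul_of_nonneg_left hK' (by linarith)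
      have h6 : (0 : ℝ) ≤ D * Kc := by positivity
      nlinarith
    calc (k : ℝ) ≤ (b + 1) * (2 * D * K1) := by linarith
      _ ≤ (b + 1) * (8 * D * Kc) := mul_le_mul_of_nonneg_left h5 (by linarith)
  have h5 : (1 / 2 : ℝ) ^ b = (2 : ℝ) ^ (-(b : ℝ)) := by
    rw [Real.rpow_neg (by norm_num), Real.rpow_natCast, one_div, inv_pow]
  have h6 : (2 : ℝ) * (2 : ℝ) ^ (-((k : ℝ) / (8 * D * Kc))) = (2 : ℝ) ^ (1 + -((k : ℝ) / (8 * D * Kc))) := by
    rw [Real.rpow_add (by norm_num), Real.rpow_one]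
  rw [h5, h6]
  apply Real.rpow_le_rpow_of_exponent_le (by norm_num)
  linarith

lemma card_box (n L : ℕ) (hL : 1 ≤ L) :
    ((Fintype.piFinset (fun _ : Fin n => Icc (-(L : ℤ)) L)).card : ℝ) ≤ 3 ^ n * (L : ℝ) ^ n := by
  rw [Fintype.card_piFinset, prod_const, card_univ, Fintype.card_fin, Int.card_Icc]
  have : ((L : ℤ) + 1 - -(L : ℤ)).toNat = 2 * L + 1 := by omega
  rw [this, ← mul_pow]
  have h1 : (1 : ℝ) ≤ L := by exact_mod_cast hL
  push_cast
  gcongr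
  linarith

lemma dzy_abs (y z z1 : ℕ) (m : ℤ) : |dzy y z z1 m| ≤ (VW y z1)⁻¹ + (VW y z)⁻¹ := by
  unfold dzy lzy
  have a1 := rg_nonneg y z1 m
  have a2 := rg_le_one y z1 m
  have a3 := rg_nonneg y z m
  have a4 := rg_le_one y z m
  have b1 : 0 ≤ (VW y z1)⁻¹ := inv_nonneg.2 (VW_pos _ _).le
  have b2 : 0 ≤ (VW y z)⁻¹ := inv_nonneg.2 (VW_pos _ _).le
  rw [abs_le]
  constructor <;> nlinarith [mul_nonneg a1 b1, mul_nonneg a3 b2, mul_le_mul_of_nonneg_right a2 b1,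
    mul_le_mul_of_nonneg_right a4 b2]

end Pool.Agent.N545.QG
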