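import Pool.Agent.N545.QG.BoxPoly
import Pool.Agent.N545.QG.BoxCore

set_option autoImplicit false

/-! Project QG (helper728), part BOX. -/

namespace Pool.Agent.N545.QG

open Finset Pool.Agent.N728.QL Filter Topology Pool.Agent.N728.QG

lemma nodiv {M a1 a2 : ℕ} {X Y c : ℤ} {p : ℕ} (hp : p.Prime) (h : ¬ p ∣ M * a1 * a2)
    (hc : ¬ (p : ℤ) ∣ c) (d1 : (p : ℤ) ∣ (M : ℤ) * X * a2) (d2 : (p : ℤ) ∣ (M : ℤ) * X * Y + c) :
    False := by
  have hpi : Prime (p : ℤ) := Nat.prime_iff_prime_int.1 hp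
  have ha2' : ¬ (p : ℤ) ∣ (a2 : ℤ) := by
    intro hpu
    exact h (Dvd.dvd.mul_left (Int.natCast_dvd_natCast.1 hpu) _)
  have h5 : (p : ℤ) ∣ (M : ℤ) * X := (hpi.dvd_or_dvd d1).resolve_right ha2'
  have h6 := dvd_sub d2 (Dvd.dvd.mul_right h5 Y)
  rw [add_sub_cancel_left] at h6
  exact hc h6

/-- the fundamental lemma for the forms -/
lemma flb_app {n K1 : ℕ} (hF : ∀ (ι : Type) [Fintype ι] [DecidableEq ι], Fintype.card ι = 2 ^ n →
    1 ≤ 2 ^ n → ∀ (b y z z1 : ℕ) (α β : ι → ℤ) (J1 J2 : ℤ), K1 ≤ b → K1 ≤ y → y ≤ z → z ≤ z1 → J1 ≤ J2 →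
    (∀ i, ∀ p : ℕ, p.Prime → y < p → ¬ ((p : ℤ) ∣ α i ∧ (p : ℤ) ∣ β i)) → Dg α β ≠ 0 →
    |∑ s ∈ Ioc J1 J2, ∏ i, dzy y z z1 (α i * s + β i)| ≤
      K1 * ((J2 : ℝ) - J1) *
        (hqg K1 y (Dg α β) ^ 2 * ((1 / 2 : ℝ) ^ b + 1 / z) +
          hqg K1 y (Dg α β) * (hqg K1 z (Dg α β) - 1)) +
      (z1 : ℝ) ^ (K1 * b))
    (b y z z1 M a1 a2 : ℕ) (x0 t0 c : ℤ) (θ : Finset (Fin n) → MvPolynomial (Fin (n + 1)) ℤ)
    (v : Fin (n + 1) → ℤ) (J1 J2 : ℤ) (hb : K1 ≤ b) (hy : K1 ≤ y) (hyz : y ≤ z) (hzz1 : z ≤ z1)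
    (hJ : J1 ≤ J2) (hp : ∀ p : ℕ, p.Prime → y < p → ¬ p ∣ M * a1 * a2 ∧ ¬ (p : ℤ) ∣ c)
    (hv : ¬ MvPolynomial.eval v (Pf (M : ℤ) x0 (a1 : ℤ) t0 (a2 : ℤ) c θ) = 0) :
    |∑ σ ∈ Ioc J1 J2, ∏ ω : Finset (Fin n),
      dzy y z z1 ((M : ℤ) * (x0 + a1 * (v 0 + ∑ j ∈ ω, v j.succ)) *
        (t0 + a2 * (σ + MvPolynomial.eval v (θ ω))) + c)| ≤
      K1 * ((J2 : ℝ) - J1) *
        (hqg K1 y (MvPolynomial.eval v (Pf (M : ℤ) x0 (a1 : ℤ) t0 (a2 : ℤ) c θ)) ^ 2 *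
          ((1 / 2 : ℝ) ^ b + 1 / z) +
          hqg K1 y (MvPolynomial.eval v (Pf (M : ℤ) x0 (a1 : ℤ) t0 (a2 : ℤ) c θ)) *
            (hqg K1 z (MvPolynomial.eval v (Pf (M : ℤ) x0 (a1 : ℤ) t0 (a2 : ℤ) c θ)) - 1)) +
      (z1 : ℝ) ^ (K1 * b) := by
  have hev := eval_Pf (M : ℤ) x0 (a1 : ℤ) t0 (a2 : ℤ) c θ v
  generalize MvPolynomial.eval v (Pf (M : ℤ) x0 (a1 : ℤ) t0 (a2 : ℤ) c θ) = E at hev hv ⊢
  generalize hX : (fun ω : Finset (Fin n) => (x0 + a1 * (v 0 + ∑ j ∈ ω, v j.succ))) = X at hev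
  have hX' : ∀ ω, x0 + a1 * (v 0 + ∑ j ∈ ω, v j.succ) = X ω := fun ω => congrFun hX ω
  generalize hY : (fun ω : Finset (Fin n) => MvPolynomial.eval v (θ ω)) = Y at hev
  have hY' : ∀ ω, MvPolynomial.eval v (θ ω) = Y ω := fun ω => congrFun hY ω
  simp only [hX', hY'] at hev ⊢
  have h4 := hF (Finset (Fin n)) (by rw [Fintype.card_finset, Fintype.card_fin])
    (Nat.one_le_two_pow) b y z z1 (fun ω : Finset (Fin n) => (M : ℤ) * X ω * a2)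
    (fun ω => (M : ℤ) * X ω * (t0 + a2 * Y ω) + c) J1 J2 hb hy hyz hzz1 hJ
    (fun ω p hpp hyp hdd => nodiv hpp (hp p hpp hyp).1 (hp p hpp hyp).2 hdd.1 hdd.2)
    (by
      rw [← hev]
      exact hv)
  rw [← hev] at h4
  have h5 : ∀ s ∈ Ioc J1 J2, ∏ ω : Finset (Fin n), dzy y z z1 ((M : ℤ) * X ω * (t0 + a2 * (s + Y ω)) + c) =
      ∏ ω : Finset (Fin n), dzy y z z1 ((M : ℤ) * X ω * a2 * s + ((M : ℤ) * X ω * (t0 + a2 * Y ω) + c)) := by
    intro s _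
    refine prod_congr rfl fun ω _ => ?_
    congr 1
    ring
  rw [sum_congr rfl h5]
  exact h4

theorem t_BOX (h1 : Pool.Agent.N728.QG.S_FLB) (h2 : Pool.Agent.N728.QG.S_AVG) (h3 : S_MER) :
    Pool.Agent.N728.QG.S_BOX := by
  intro n δ c hn hc
  obtain ⟨K1, hK1, hF⟩ := h1 (2 ^ n)
  obtain ⟨C0, hC0, hM, -⟩ := h3
  set κ : ℕ := 2 ^ n + 1 + K1 with hκ
  have hK1κ : K1 ≤ κ := Nat.le_add_left _ _
  obtain ⟨K2, hK2, hAv⟩ := h2 (n + 1) (dgb n δ) κ (by omega)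
  set A : ℝ := 3 ^ (n + 1) + K2 with hA
  have hA0 : 0 < A := by positivity
  set Kc : ℕ := 2 + K1 * K1 + K1 + ⌈2 * K1 * A⌉₊ with hKc
  have hKcK1 : K1 ≤ Kc := by omega
  have hKcA : 2 * K1 * A ≤ (Kc : ℝ) := by
    have h4 : ⌈2 * K1 * A⌉₊ ≤ Kc := by omega
    exact (Nat.le_ceil _).trans (Nat.cast_le.2 h4)
  refine ⟨Kc, by omega, ?_⟩
  intro k y D hk hy hD hkD ε hε
  have hy2 : 2 ≤ y := by omega
  set b := k / (2 * D * K1) with hb
  have hpos : 0 < 2 * D * K1 := by positivity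
  have hbK : K1 ≤ b := by
    rw [hb, Nat.le_div_iff_mul_le hpos]
    calc K1 * (2 * D * K1) = 2 * D * (K1 * K1) := by ring
      _ ≤ 8 * D * Kc := Nat.mul_le_mul (by omega) (by omega)
      _ ≤ k := hkD
  obtain ⟨z0, hz0⟩ := eventually_atTop.1 ((ev_z K1 A K2 ε hε).and (eventually_ge_atTop y))
  refine ⟨z0, fun z hz => ?_⟩
  obtain ⟨hzε, hyz⟩ := hz0 z hz
  have hz2 : 2 ≤ z := hy2.trans hyz
  intro M a1 a2 x0 t0 θ hM1 ha1 ha2 hp hθ
  set P : MvPolynomial (Fin (n + 1)) ℤ := Pf (M : ℤ) x0 (a1 : ℤ) t0 (a2 : ℤ) c θ with hP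
  have hPdeg : P.totalDegree ≤ dgb n δ := deg_Pf _ _ _ _ _ _ θ δ hθ
  have hPy : ∀ p : ℕ, p.Prime → y < p → MvPolynomial.map (Int.castRingHom (ZMod p)) P ≠ 0 :=
    fun p hpp hyp => Pf_mod M a1 a2 x0 t0 c θ p hpp (hp p hpp hyp).1 (hp p hpp hyp).2
  have hPz : ∀ p : ℕ, p.Prime → z < p → MvPolynomial.map (Int.castRingHom (ZMod p)) P ≠ 0 :=
    fun p hpp hzp => hPy p hpp (by omega)
  obtain ⟨By, hBy⟩ := hAv y P hy2 hPdeg hPy D hD
  obtain ⟨Bz, hBz⟩ := hAv z P hz2 hPdeg hPz D hD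
  have hlogB : Tendsto (fun B : ℕ => Real.log (B : ℝ)) atTop atTop :=
    Real.tendsto_log_atTop.comp tendsto_natCast_atTop_atTop
  set c0 : ℝ := 3 ^ (n + 1) with hc0
  have hc0p : 0 < c0 := by positivity
  have hBev := (eventually_ge_atTop (By + Bz + 2 + ⌈(4 * c0 / ε) ^ 2⌉₊ ^ D)).and
    ((hlogB.eventually_ge_atTop 1).and (hlogB.eventually_ge_atTop (4 * (4 * C0) ^ 2 ^ n / ε)))
  obtain ⟨B0, hB0⟩ := eventually_atTop.1 hBev
  refine ⟨B0, fun B hB => ?_⟩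
  obtain ⟨hBB, hBl, hBl2⟩ := hB0 B hB
  intro z1 L N J1 J2 hzz1 hz1k hL1 hL2 hN1 hN2 hJ
  have hBpos : 1 ≤ B := by omega
  have hLpos : 1 ≤ L := by
    by_contra hcon
    have h0 : L = 0 := by omega
    rw [h0, zero_pow (by omega)] at hL1
    omega
  have hNpos : 1 ≤ N := by
    by_contra hcon
    have h0 : N = 0 := by omega
    rw [h0, zero_pow (by omega)] at hN1
    omega
  obtain ⟨hAy, hZ⟩ := hBy B (by omega) L hL1 hL2
  obtain ⟨hAz, -⟩ := hBz B (by omega) L hL1 hL2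
  have hz12 : 2 ≤ z1 := hz2.trans hzz1
  have hk1 : 1 ≤ k := by omega
  have hz1B : z1 ≤ B := (Nat.le_self_pow (by omega) z1).trans hz1k
  -- the trivial bound
  have hlogy : (1 : ℝ) / 2 ≤ Real.log y := by
    have h4 : Real.log 2 ≤ Real.log y := Real.log_le_log (by norm_num) (by exact_mod_cast hy2)
    have h5 := Real.log_two_gt_d9
    linarith
  have hV : ∀ u : ℕ, y ≤ u → u ≤ B → (VW y u)⁻¹ ≤ 2 * C0 * Real.log B := by
    intro u hyu huB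
    refine (hM y u hy2 hyu).2.trans ?_
    have h4 : Real.log u ≤ Real.log B := by
      apply Real.log_le_log
      · exact_mod_cast (by omega : 0 < u)
      · exact_mod_cast huB
    have h5 : Real.log u / Real.log y ≤ 2 * Real.log B := by
      rw [div_le_iff₀ (by linarith)]
      nlinarith
    calc C0 * (Real.log u / Real.log y) ≤ C0 * (2 * Real.log B) :=
          mul_le_mul_of_nonneg_left h5 (by linarith)
      _ = _ := by ring
  have hdz : ∀ m : ℤ, |dzy y z z1 m| ≤ 4 * C0 * Real.log B := by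
    intro m
    have h4 := dzy_abs y z z1 m
    have h5 := hV z1 (hyz.trans hzz1) hz1B
    have h6 := hV z hyz (hzz1.trans hz1B)
    linarith
  set Q : ℝ := (4 * C0 * Real.log B) ^ 2 ^ n with hQ
  have hQ0 : 0 ≤ Q := by positivity
  -- the core
  set S : (Fin (n + 1) → ℤ) → ℝ := fun v => |∑ σ ∈ Ioc (J1 v) (J2 v), ∏ ω : Finset (Fin n),
      dzy y z z1 ((M : ℤ) * (x0 + a1 * (v 0 + ∑ j ∈ ω, v j.succ)) *
        (t0 + a2 * (σ + MvPolynomial.eval v (θ ω))) + c)| with hS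
  have hJN : ∀ v, 0 ≤ ((J2 v : ℝ) - J1 v) ∧ ((J2 v : ℝ) - J1 v) ≤ N := by
    intro v
    obtain ⟨j1, j2⟩ := hJ v
    constructor
    · have : (J1 v : ℝ) ≤ J2 v := by exact_mod_cast j1
      linarith
    · have : (J2 v : ℝ) ≤ J1 v + N := by exact_mod_cast j2
      linarith
  have hcore := core (Fintype.piFinset (fun _ : Fin (n + 1) => Icc (-(L : ℤ)) L))
    (fun v => MvPolynomial.eval v P = 0) S (fun v => hqg κ y (MvPolynomial.eval v P))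
    (fun v => hqg κ z (MvPolynomial.eval v P)) N K1 ((1 / 2 : ℝ) ^ b + 1 / z)
    ((z1 : ℝ) ^ (K1 * b)) Q (Real.log B ^ κ) (K2 / y) (K2 / z) c0 ((L : ℝ) ^ (n + 1))
    (Nat.cast_nonneg _) (Nat.cast_nonneg _) (by positivity) (by positivity) hQ0 (by positivity)
    (by positivity) hc0p.le (by positivity) (fun v => hqg_one_le _ _ _) ?_ ?_ hAy hAz hZ
    (card_box (n + 1) L hLpos)
  · refine hcore.trans ?_
    have hLr : (0 : ℝ) ≤ (L : ℝ) ^ (n + 1) := by positivity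
    have hNr : (1 : ℝ) ≤ N := by exact_mod_cast hNpos
    have hyA : c0 + K2 / y ≤ A := by
      rw [hA]
      have : K2 / y ≤ K2 := div_le_self hK2.le (by exact_mod_cast (by omega : 1 ≤ y))
      linarith
    have hyA0 : 0 ≤ c0 + K2 / y := by positivity
    have e1 : Q / Real.log B ^ κ ≤ ε / 4 := by
      have hl0 : 0 < Real.log (B : ℝ) := by linarith
      rw [hQ, mul_pow, div_le_iff₀ (by positivity)]
      have h5 : Real.log (B : ℝ) ^ 2 ^ n * Real.log B ≤ Real.log B ^ κ := by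
        rw [← pow_succ]
        exact pow_le_pow_right₀ hBl (by omega)
      rw [div_le_iff₀ hε] at hBl2
      have h6 : (4 * C0) ^ 2 ^ n ≤ ε / 4 * Real.log B := by linarith
      calc (4 * C0) ^ 2 ^ n * Real.log (B : ℝ) ^ 2 ^ n
          ≤ (ε / 4 * Real.log B) * Real.log (B : ℝ) ^ 2 ^ n :=
            mul_le_mul_of_nonneg_right h6 (by positivity)
        _ = ε / 4 * (Real.log (B : ℝ) ^ 2 ^ n * Real.log B) := by ring
        _ ≤ ε / 4 * Real.log B ^ κ := mul_le_mul_of_nonneg_left h5 (by positivity)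
    have e2 : K1 * (A * (1 / 2 : ℝ) ^ b) ≤ Kc * (2 : ℝ) ^ (-((k : ℝ) / (8 * D * Kc))) := by
      have h4 := pow_half (k := k) hK1 hD hKcK1
      have h5 : (0 : ℝ) ≤ (2 : ℝ) ^ (-((k : ℝ) / (8 * D * Kc))) := Real.rpow_nonneg (by norm_num) _
      calc K1 * (A * (1 / 2 : ℝ) ^ b)
          ≤ K1 * (A * (2 * (2 : ℝ) ^ (-((k : ℝ) / (8 * D * Kc))))) := by gcongr
        _ = (2 * K1 * A) * (2 : ℝ) ^ (-((k : ℝ) / (8 * D * Kc))) := by ring
        _ ≤ Kc * (2 : ℝ) ^ (-((k : ℝ) / (8 * D * Kc))) := mul_le_mul_of_nonneg_right hKcA h5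
    have e3 : c0 * (z1 : ℝ) ^ (K1 * b) ≤ ε / 4 * N := by
      have hPN : (z1 ^ (K1 * b)) ^ 2 ≤ N := by
        have h4 : ((z1 ^ (K1 * b)) ^ 2) ^ D ≤ N ^ D := by
          rw [← pow_mul, ← pow_mul]
          refine (Nat.pow_le_pow_right (by omega) ?_).trans (hz1k.trans hN1)
          calc K1 * b * (2 * D) = k / (2 * D * K1) * (2 * D * K1) := by rw [← hb]; ring
            _ ≤ k := Nat.div_mul_le_self _ _
        exact (Nat.pow_le_pow_iff_left (by omega)).1 h4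
      have hPN' : ((z1 : ℝ) ^ (K1 * b)) ^ 2 ≤ N := by exact_mod_cast hPN
      have hNε : (4 * c0 / ε) ^ 2 ≤ (N : ℝ) := by
        have h4 : ⌈(4 * c0 / ε) ^ 2⌉₊ ^ D ≤ N ^ D := by
          refine le_trans ?_ hN1
          omega
        have h5 : ⌈(4 * c0 / ε) ^ 2⌉₊ ≤ N := (Nat.pow_le_pow_iff_left (by omega)).1 h4
        exact (Nat.le_ceil _).trans (Nat.cast_le.2 h5)
      have hs := Real.sq_sqrt (show (0 : ℝ) ≤ N by linarith)
      have hs0 := Real.sqrt_nonneg (N : ℝ)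
      have h6 : (z1 : ℝ) ^ (K1 * b) ≤ √(N : ℝ) := Real.le_sqrt_of_sq_le hPN'
      have h7 : 4 * c0 / ε ≤ √(N : ℝ) := Real.le_sqrt_of_sq_le hNε
      rw [div_le_iff₀ hε] at h7
      calc c0 * (z1 : ℝ) ^ (K1 * b) ≤ c0 * √(N : ℝ) := mul_le_mul_of_nonneg_left h6 hc0p.le
        _ ≤ (√(N : ℝ) * ε / 4) * √(N : ℝ) := mul_le_mul_of_nonneg_right (by linarith) hs0
        _ = ε / 4 * √(N : ℝ) ^ 2 := by ring
        _ = ε / 4 * N := by rw [hs]
    have e4 : K1 * ((c0 + K2 / y) * ((1 / 2 : ℝ) ^ b + 1 / z) + √((c0 + K2 / y) * (K2 / z))) ≤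
        Kc * (2 : ℝ) ^ (-((k : ℝ) / (8 * D * Kc))) + ε / 2 := by
      calc K1 * ((c0 + K2 / y) * ((1 / 2 : ℝ) ^ b + 1 / z) + √((c0 + K2 / y) * (K2 / z)))
          ≤ K1 * (A * ((1 / 2 : ℝ) ^ b + 1 / z) + √(A * (K2 / z))) := by gcongr
        _ = K1 * (A * (1 / 2 : ℝ) ^ b) + K1 * (A * (1 / (z : ℝ)) + √(A * (K2 / z))) := by ring
        _ ≤ _ := add_le_add e2 hzε
    calc (N * (Q / Real.log B ^ κ + K1 * ((c0 + K2 / y) * ((1 / 2 : ℝ) ^ b + 1 / z) +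
          √((c0 + K2 / y) * (K2 / z)))) + c0 * (z1 : ℝ) ^ (K1 * b)) * (L : ℝ) ^ (n + 1)
        ≤ (N * (ε / 4 + (Kc * (2 : ℝ) ^ (-((k : ℝ) / (8 * D * Kc))) + ε / 2)) + ε / 4 * N) *
            (L : ℝ) ^ (n + 1) := by gcongr
      _ = _ := by ring
  · -- the fundamental lemma
    intro v _ hv
    have h4 := flb_app hF b y z z1 M a1 a2 x0 t0 c θ v (J1 v) (J2 v) hbK (by omega) hyz hzz1 (hJ v).1
      hp hv
    refine h4.trans (add_le_add ?_ le_rfl)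
    obtain ⟨j1, j2⟩ := hJN v
    have m1 := hqg_mono hK1κ y (MvPolynomial.eval v P)
    have m2 := hqg_mono hK1κ z (MvPolynomial.eval v P)
    have m3 := hqg_one_le K1 y (MvPolynomial.eval v P)
    have m4 := hqg_one_le K1 z (MvPolynomial.eval v P)
    have m5 := hqg_one_le κ y (MvPolynomial.eval v P)
    have m6 : 0 ≤ hqg K1 z (MvPolynomial.eval v P) - 1 := by linarith
    gcongr
  · -- the trivial bound
    intro v _ _
    rw [hS]
    dsimp only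
    refine (abs_sum_le_sum_abs _ _).trans ?_
    have h4 : ∀ σ ∈ Ioc (J1 v) (J2 v), |∏ ω : Finset (Fin n),
        dzy y z z1 ((M : ℤ) * (x0 + a1 * (v 0 + ∑ j ∈ ω, v j.succ)) *
          (t0 + a2 * (σ + MvPolynomial.eval v (θ ω))) + c)| ≤ Q := by
      intro σ _
      rw [abs_prod, hQ]
      refine (prod_le_prod (fun _ _ => abs_nonneg _) (fun ω _ => hdz _)).trans ?_
      rw [prod_const, card_univ, Fintype.card_finset, Fintype.card_fin]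
    refine (sum_le_sum h4).trans ?_
    rw [sum_const, nsmul_eq_mul, Int.card_Ioc]
    apply mul_le_mul_of_nonneg_right _ hQ0
    obtain ⟨j1, j2⟩ := hJ v
    have : (J2 v - J1 v).toNat ≤ N := by omega
    exact_mod_cast this

end Pool.Agent.N545.QG
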