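import Pool.Agent.N728.QG.Def

set_option autoImplicit false

/-! Project QG (helper728), part BOX: the discriminant as a polynomial. -/

namespace Pool.Agent.N545.QG

open Finset MvPolynomial Pool.Agent.N728.QG

variable {n : ℕ} {R : Type} [CommRing R]

/-- the linear form `v 0 + ∑_{j ∈ ω} v j.succ` -/
noncomputable def lf (R : Type) [CommRing R] (ω : Finset (Fin n)) : MvPolynomial (Fin (n + 1)) R :=
  X 0 + ∑ j ∈ ω, X j.succ

/-- `x_ω` -/
noncomputable def xf (a b : R) (ω : Finset (Fin n)) : MvPolynomial (Fin (n + 1)) R :=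
  C a + C b * lf R ω

/-- `α_ω` -/
noncomputable def af (m a b d : R) (ω : Finset (Fin n)) : MvPolynomial (Fin (n + 1)) R :=
  C (m * d) * xf a b ω

/-- `β_ω` -/
noncomputable def bf (m a b t d c : R) (θ : Finset (Fin n) → MvPolynomial (Fin (n + 1)) R)
    (ω : Finset (Fin n)) : MvPolynomial (Fin (n + 1)) R :=
  C m * xf a b ω * (C t + C d * θ ω) + C c

/-- the discriminant -/
noncomputable def Pf (m a b t d c : R) (θ : Finset (Fin n) → MvPolynomial (Fin (n + 1)) R) :
    MvPolynomial (Fin (n + 1)) R :=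
  (∏ ω : Finset (Fin n), af m a b d ω) * ∏ ij ∈ (univ : Finset (Finset (Fin n))).offDiag,
    (af m a b d ij.1 * bf m a b t d c θ ij.2 - af m a b d ij.2 * bf m a b t d c θ ij.1)

lemma eval_lf (v : Fin (n + 1) → R) (ω : Finset (Fin n)) :
    eval v (lf R ω) = v 0 + ∑ j ∈ ω, v j.succ := by
  simp [lf, map_sum]

lemma eval_xf (a b : R) (v : Fin (n + 1) → R) (ω : Finset (Fin n)) :
    eval v (xf a b ω) = a + b * (v 0 + ∑ j ∈ ω, v j.succ) := by
  simp [xf, eval_lf]

lemma deg_lf (ω : Finset (Fin n)) : (lf R ω).totalDegree ≤ 1 := by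
  rcases subsingleton_or_nontrivial R with h | h
  · have : lf R ω = 0 := Subsingleton.elim _ _
    rw [this, totalDegree_zero]
    omega
  · unfold lf
    refine (totalDegree_add _ _).trans (max_le (by rw [totalDegree_X]) ?_)
    refine totalDegree_finsetSum_le fun j _ => ?_
    rw [totalDegree_X]

lemma deg_xf (a b : R) (ω : Finset (Fin n)) : (xf a b ω).totalDegree ≤ 1 := by
  unfold xf
  refine (totalDegree_add _ _).trans (max_le (by rw [totalDegree_C]; omega) ?_)
  refine (totalDegree_mul _ _).trans ?_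
  rw [totalDegree_C, zero_add]
  exact deg_lf ω

lemma deg_af (m a b d : R) (ω : Finset (Fin n)) : (af m a b d ω).totalDegree ≤ 1 := by
  unfold af
  refine (totalDegree_mul _ _).trans ?_
  rw [totalDegree_C, zero_add]
  exact deg_xf a b ω

lemma deg_bf (m a b t d c : R) (θ : Finset (Fin n) → MvPolynomial (Fin (n + 1)) R) (δ : ℕ)
    (hθ : ∀ ω, (θ ω).totalDegree ≤ δ) (ω : Finset (Fin n)) :
    (bf m a b t d c θ ω).totalDegree ≤ 1 + δ := by
  unfold bf
  refine (totalDegree_add _ _).trans (max_le ?_ (by rw [totalDegree_C]; omega))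
  refine (totalDegree_mul _ _).trans (add_le_add ?_ ?_)
  · refine (totalDegree_mul _ _).trans ?_
    rw [totalDegree_C, zero_add]
    exact deg_xf a b ω
  · refine (totalDegree_add _ _).trans (max_le (by rw [totalDegree_C]; omega) ?_)
    refine (totalDegree_mul _ _).trans ?_
    rw [totalDegree_C, zero_add]
    exact hθ ω

/-- the bound for the degree -/
def dgb (n δ : ℕ) : ℕ := 2 ^ n + 2 ^ n * 2 ^ n * (2 + δ)

lemma deg_Pf (m a b t d c : R) (θ : Finset (Fin n) → MvPolynomial (Fin (n + 1)) R) (δ : ℕ)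
    (hθ : ∀ ω, (θ ω).totalDegree ≤ δ) : (Pf m a b t d c θ).totalDegree ≤ dgb n δ := by
  unfold Pf dgb
  refine (totalDegree_mul _ _).trans (add_le_add ?_ ?_)
  · refine (totalDegree_finsetProd _ _).trans ((sum_le_sum fun ω _ => deg_af m a b d ω).trans ?_)
    rw [sum_const, card_univ, Fintype.card_finset, Fintype.card_fin, smul_eq_mul, mul_one]
  · refine (totalDegree_finsetProd _ _).trans ((sum_le_sum (g := fun _ => 2 + δ) fun ij _ => ?_).trans ?_)
    · refine (totalDegree_sub _ _).trans (max_le ?_ ?_)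
      · refine (totalDegree_mul _ _).trans ?_
        have h1 := deg_af m a b d ij.1
        have h2 := deg_bf m a b t d c θ δ hθ ij.2
        omega
      · refine (totalDegree_mul _ _).trans ?_
        have h1 := deg_af m a b d ij.2
        have h2 := deg_bf m a b t d c θ δ hθ ij.1
        omega
    · rw [sum_const, smul_eq_mul]
      apply Nat.mul_le_mul_right
      rw [offDiag_card, card_univ, Fintype.card_finset, Fintype.card_fin]
      exact Nat.sub_le _ _

lemma eval_Pf (m a b t d c : ℤ) (θ : Finset (Fin n) → MvPolynomial (Fin (n + 1)) ℤ)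
    (v : Fin (n + 1) → ℤ) : eval v (Pf m a b t d c θ) =
      Dg (fun ω : Finset (Fin n) => m * (a + b * (v 0 + ∑ j ∈ ω, v j.succ)) * d)
        (fun ω => m * (a + b * (v 0 + ∑ j ∈ ω, v j.succ)) * (t + d * eval v (θ ω)) + c) := by
  have h1 : ∀ ω, eval v (af m a b d ω) = m * (a + b * (v 0 + ∑ j ∈ ω, v j.succ)) * d := by
    intro ω
    unfold af
    rw [map_mul, eval_xf, eval_C]
    ring
  have h2 : ∀ ω, eval v (bf m a b t d c θ ω) =
      m * (a + b * (v 0 + ∑ j ∈ ω, v j.succ)) * (t + d * eval v (θ ω)) + c := by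
    intro ω
    unfold bf
    rw [map_add, map_mul, map_mul, map_add, map_mul, eval_xf, eval_C, eval_C, eval_C, eval_C]
  unfold Pf Dg
  rw [map_mul, map_prod, map_prod]
  congr 1
  · exact prod_congr rfl fun ω _ => h1 ω
  · refine prod_congr rfl fun ij _ => ?_
    rw [map_sub, map_mul, map_mul, h1, h1, h2, h2]

lemma map_Pf {S : Type} [CommRing S] (φ : R →+* S) (m a b t d c : R)
    (θ : Finset (Fin n) → MvPolynomial (Fin (n + 1)) R) :
    MvPolynomial.map φ (Pf m a b t d c θ) =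
      Pf (φ m) (φ a) (φ b) (φ t) (φ d) (φ c) (fun ω => MvPolynomial.map φ (θ ω)) := by
  have h0 : ∀ ω : Finset (Fin n), MvPolynomial.map φ (xf a b ω) = xf (φ a) (φ b) ω := by
    intro ω
    simp [xf, lf, map_sum]
  have h1 : ∀ ω : Finset (Fin n), MvPolynomial.map φ (af m a b d ω) = af (φ m) (φ a) (φ b) (φ d) ω := by
    intro ω
    simp [af, h0]
  have h2 : ∀ ω, MvPolynomial.map φ (bf m a b t d c θ ω) =
      bf (φ m) (φ a) (φ b) (φ t) (φ d) (φ c) (fun ω => MvPolynomial.map φ (θ ω)) ω := by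
    intro ω
    simp [bf, h0]
  unfold Pf
  rw [map_mul, map_prod, map_prod]
  congr 1
  · exact prod_congr rfl fun ω _ => h1 ω
  · refine prod_congr rfl fun ij _ => ?_
    rw [map_sub, map_mul, map_mul, h1, h1, h2, h2]

section field

variable {F : Type} [Field F]

lemma xf_ne {a b : F} (hb : b ≠ 0) (ω : Finset (Fin n)) :
    xf a b ω ≠ 0 ∧ 1 ≤ (xf a b ω).totalDegree := by
  have h1 : 1 ≤ (xf a b ω).totalDegree := by
    by_contra hcon
    have h2 : (xf a b ω).totalDegree = 0 := by omega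
    rw [totalDegree_eq_zero_iff_eq_C] at h2
    have h3 : eval (0 : Fin (n + 1) → F) (xf a b ω) = eval (Pi.single 0 1) (xf a b ω) := by
      rw [h2, eval_C, eval_C]
    rw [eval_xf, eval_xf] at h3
    simp only [Pi.zero_apply, sum_const_zero, add_zero, mul_zero, Pi.single_eq_same] at h3
    have h4 : ∑ j ∈ ω, (Pi.single (0 : Fin (n + 1)) (1 : F) : Fin (n + 1) → F) j.succ = 0 :=
      sum_eq_zero fun j _ => Pi.single_eq_of_ne (Fin.succ_ne_zero j) 1
    rw [h4, add_zero, mul_one] at h3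
    exact hb (by simpa using h3)
  refine ⟨fun h => ?_, h1⟩
  rw [h, totalDegree_zero] at h1
  omega

lemma xf_inj {a b : F} (hb : b ≠ 0) {ω ω' : Finset (Fin n)} (h : xf a b ω = xf a b ω') : ω = ω' := by
  ext j0
  have h1 : ∀ ω : Finset (Fin n), eval (Pi.single j0.succ 1) (xf a b ω) =
      a + b * (if j0 ∈ ω then 1 else 0) := by
    intro ω
    rw [eval_xf, Pi.single_eq_of_ne (Fin.succ_ne_zero j0).symm, zero_add]
    congr 2
    have h2 : ∀ j ∈ ω, (Pi.single j0.succ (1 : F) : Fin (n + 1) → F) j.succ = if j = j0 then 1 else 0 := by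
      intro j _
      by_cases h3 : j = j0
      · rw [if_pos h3, h3, Pi.single_eq_same]
      · rw [if_neg h3, Pi.single_eq_of_ne]
        intro h4
        exact h3 (Fin.succ_injective _ h4)
    rw [sum_congr rfl h2, sum_ite_eq']
  have h2 : eval (Pi.single j0.succ 1) (xf a b ω) = eval (Pi.single j0.succ 1) (xf a b ω') := by rw [h]
  rw [h1, h1] at h2
  have h3 := mul_left_cancel₀ hb (add_left_cancel h2)
  by_cases h4 : j0 ∈ ω <;> by_cases h5 : j0 ∈ ω' <;> simp [h4, h5] at h3 ⊢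

lemma pair_ne {m a b t d c : F} (hm : m ≠ 0) (hb : b ≠ 0) (hd : d ≠ 0) (hc : c ≠ 0)
    (θ : Finset (Fin n) → MvPolynomial (Fin (n + 1)) F) {i j : Finset (Fin n)} (hij : i ≠ j) :
    af m a b d i * bf m a b t d c θ j - af m a b d j * bf m a b t d c θ i ≠ 0 := by
  intro h
  have h1 : C (m * d) * (C (m * d) * (xf a b i * xf a b j * (θ j - θ i)) +
      C c * (xf a b i - xf a b j)) = 0 := by
    rw [← h]
    unfold af bf
    rw [C_mul]
    ring
  have h2 : (C (m * d) : MvPolynomial (Fin (n + 1)) F) ≠ 0 := by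
    rw [Ne, C_eq_zero]
    exact mul_ne_zero hm hd
  have h3 := (mul_eq_zero.1 h1).resolve_left h2
  by_cases h4 : θ j = θ i
  · rw [h4, sub_self, mul_zero, mul_zero, zero_add] at h3
    have h5 : (C c : MvPolynomial (Fin (n + 1)) F) ≠ 0 := by
      rw [Ne, C_eq_zero]
      exact hc
    have h6 := (mul_eq_zero.1 h3).resolve_left h5
    exact hij (xf_inj hb (sub_eq_zero.1 h6))
  · have h5 : C (m * d) * (xf a b i * xf a b j * (θ j - θ i)) = -(C c * (xf a b i - xf a b j)) :=
      eq_neg_of_add_eq_zero_left h3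
    have h6 : (-(C c * (xf a b i - xf a b j))).totalDegree ≤ 1 := by
      rw [totalDegree_neg]
      refine (totalDegree_mul _ _).trans ?_
      rw [totalDegree_C, zero_add]
      exact (totalDegree_sub _ _).trans (max_le (deg_xf a b i) (deg_xf a b j))
    rw [← h5] at h6
    obtain ⟨n1, d1⟩ := xf_ne (a := a) hb i
    obtain ⟨n2, d2⟩ := xf_ne (a := a) hb j
    have n3 : θ j - θ i ≠ 0 := sub_ne_zero.2 h4
    rw [totalDegree_mul_of_isDomain h2 (mul_ne_zero (mul_ne_zero n1 n2) n3),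
      totalDegree_mul_of_isDomain (mul_ne_zero n1 n2) n3, totalDegree_mul_of_isDomain n1 n2] at h6
    omega

lemma Pf_ne {m a b t d c : F} (hm : m ≠ 0) (hb : b ≠ 0) (hd : d ≠ 0) (hc : c ≠ 0)
    (θ : Finset (Fin n) → MvPolynomial (Fin (n + 1)) F) : Pf m a b t d c θ ≠ 0 := by
  unfold Pf
  refine mul_ne_zero ?_ ?_
  · rw [prod_ne_zero_iff]
    intro ω _
    unfold af
    refine mul_ne_zero ?_ (xf_ne hb ω).1
    rw [Ne, C_eq_zero]
    exact mul_ne_zero hm hd
  · rw [prod_ne_zero_iff]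
    intro ij hij
    rw [mem_offDiag] at hij
    exact pair_ne hm hb hd hc θ hij.2.2

end field

/-- the discriminant does not vanish modulo `p` -/
lemma Pf_mod (M a1 a2 : ℕ) (x0 t0 c : ℤ) (θ : Finset (Fin n) → MvPolynomial (Fin (n + 1)) ℤ) (p : ℕ)
    (hp : p.Prime) (h1 : ¬ p ∣ M * a1 * a2) (h2 : ¬ (p : ℤ) ∣ c) :
    MvPolynomial.map (Int.castRingHom (ZMod p)) (Pf (M : ℤ) x0 (a1 : ℤ) t0 (a2 : ℤ) c θ) ≠ 0 := by
  have := Fact.mk hp
  rw [map_Pf]
  have hM : ¬ p ∣ M := fun h => h1 (Dvd.dvd.mul_right (Dvd.dvd.mul_right h _) _)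
  have ha1 : ¬ p ∣ a1 := fun h => h1 (Dvd.dvd.mul_right (Dvd.dvd.mul_left h _) _)
  have ha2 : ¬ p ∣ a2 := fun h => h1 (Dvd.dvd.mul_left h _)
  have key : ∀ u : ℕ, ¬ p ∣ u → (Int.castRingHom (ZMod p)) (u : ℤ) ≠ 0 := by
    intro u hu
    simp only [eq_intCast, Int.cast_natCast]
    rwa [Ne, ZMod.natCast_eq_zero_iff]
  apply Pf_ne (key M hM) (key a1 ha1) (key a2 ha2)
  rw [eq_intCast, Ne, ZMod.intCast_zmod_eq_zero_iff_dvd]
  exact h2

end Pool.Agent.N545.QG
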