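import Pool.Agent.N728.QG.Def

set_option autoImplicit false

/-! Project QG (helper728), part CORE: the orbit bound, with the bad pairs and the first factor estimated. -/

namespace Pool.Agent.N545.QG

open Finset Pool.Agent.N728.QL Pool.Agent.N728.QG

lemma sum_Icc_Ioc (Y : ℕ) (h : ℕ → ℝ) : ∑ t ∈ Icc 1 Y, h t = ∑ t ∈ Ioc 0 Y, h t := by
  apply sum_congr _ fun _ _ => rfl
  ext t
  rw [mem_Icc, mem_Ioc]
  omega

theorem t_CORE (hORB : S_ORB) (hEK : S_EK) (hBAD : Pool.Agent.N728.QG.S_BAD) (hRNG : S_RNG) : S_CORE := by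
  intro C0 k D K hC0 hD hK
  obtain ⟨CB, hCB, kB, BB, hBd⟩ := hBAD C0 k (4 * D) hC0 (by omega)
  obtain ⟨kR, BR, hR⟩ := hRNG D K hD hK
  obtain ⟨CE, hCE, hEK⟩ := hEK
  have hKr : (1 : ℝ) ≤ K := by exact_mod_cast hK
  refine ⟨1 + CB + 3 * (CB * K) + C0 * K * CE, ?_, k + kB + kR, BB + BR + K + 2, ?_⟩
  · have h1 : 0 ≤ CB * K := by positivity
    have h2 : 0 ≤ C0 * K * CE := by positivity
    linarith
  intro B hB W E hEW hU0 hU1 T w y M0 ρ φ hT1 hT2 hw hwy hy hM0 hM0B hρ1 hρ2 hφ1 hφ2
  set C : ℝ := 1 + CB + 3 * (CB * K) + C0 * K * CE with hC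
  have hCBK : 0 ≤ CB * K := by positivity
  have hCCK : 0 ≤ C0 * K * CE := by positivity
  have hC1 : 1 ≤ C := by rw [hC]; linarith
  have hCCB : CB ≤ C := by rw [hC]; linarith
  have hCB3 : 3 * (CB * K) ≤ C := by rw [hC]; linarith
  have hCE' : C0 * K * CE ≤ C := by rw [hC]; linarith
  have hW : ∀ n, 0 ≤ W n := fun n => (abs_nonneg _).trans (hEW n)
  have hB1 : 1 ≤ B := by omega
  have hB2 : (2 : ℝ) ≤ B := by exact_mod_cast (by omega : 2 ≤ B)
  have hlogB : 0 < Real.log B := Real.log_pos (by linarith)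
  have hρ : 1 < ρ := by
    have : 0 < 1 / Real.log B := by positivity
    linarith
  have hT0 : 1 ≤ T := by
    by_contra hcon
    have h0 : T = 0 := by omega
    rw [h0, zero_pow (by omega)] at hT1
    omega
  have hy1 : 1 ≤ y := by omega
  have hyk : y ^ k ≤ B := (Nat.pow_le_pow_right hy1 (by omega)).trans hy
  have hykB : y ^ kB ≤ B := (Nat.pow_le_pow_right hy1 (by omega)).trans hy
  have hM0kB : M0 ^ kB ≤ B := (Nat.pow_le_pow_right hM0 (by omega)).trans hM0B
  have hM0kR : M0 ^ kR ≤ B := (Nat.pow_le_pow_right hM0 (by omega)).trans hM0B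
  have hM0k : M0 ^ k ≤ B := (Nat.pow_le_pow_right hM0 (by omega)).trans hM0B
  have h := hORB T (K * B) w y M0 ρ φ E W hρ hφ1 hφ2 hEW
  refine h.trans (add_le_add ?_ ?_)
  · -- the bad pairs
    have hbad := hBd B (by omega) W hW (by
      have : 2 * (4 * D) = 8 * D := by ring
      rw [this]
      exact hU0) w y M0 T (K * B) ρ hw hwy hykB hM0 hM0kB
      (hT1.trans (Nat.pow_le_pow_right hT0 (by omega)))
      (hT2.trans (Nat.pow_le_pow_right hB1 (by omega)))
      (by
        calc B ≤ K * B := Nat.le_mul_of_pos_left B (by omega)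
          _ ≤ (K * B) ^ (4 * D) := Nat.le_self_pow (by omega) _)
      (by
        calc K * B ≤ B * B := Nat.mul_le_mul_right _ (by omega)
          _ = B ^ 2 := by ring
          _ ≤ B ^ (4 * D) := Nat.pow_le_pow_right hB1 (by omega))
      hρ1 hρ2
    refine hbad.trans ?_
    push_cast
    have hTB : 0 ≤ (T : ℝ) * B := by positivity
    have hwr : (2 : ℝ) ≤ w := by exact_mod_cast hw
    have hiw : 0 < 1 / (w : ℝ) := by positivity
    set e := Real.exp (-(Real.log M0 / (2 * Real.log y))) with he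
    have he0 : 0 < e := Real.exp_pos _
    rcases Nat.lt_or_ge y 3 with hy3 | hy3
    · have hy2 : y = 2 := by omega
      have hw2 : w = 2 := by omega
      have hl : Real.log y ^ CB ≤ 1 := by
        apply Real.rpow_le_one
        · exact Real.log_natCast_nonneg _
        · rw [hy2]
          have := Real.log_two_lt_d9
          push_cast
          linarith
        · exact hCB.le
      have hl0 : 0 ≤ Real.log y ^ CB := Real.rpow_nonneg (Real.log_natCast_nonneg _) _
      have hlC : 0 ≤ Real.log y ^ C := Real.rpow_nonneg (Real.log_natCast_nonneg _) _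
      have he1 : e ≤ 1 := by
        rw [he]
        apply Real.exp_le_one_iff.2
        have h1 : 0 ≤ Real.log M0 := Real.log_natCast_nonneg _
        have h2 : 0 ≤ Real.log y := Real.log_natCast_nonneg _
        have : 0 ≤ Real.log M0 / (2 * Real.log y) := by positivity
        linarith
      have h1 : Real.log y ^ CB * e ≤ 1 := mul_le_one₀ hl he0.le he1
      have h2 : 1 / (w : ℝ) = 1 / 2 := by rw [hw2]; norm_num
      have h3 : 1 / (w : ℝ) + (ρ - 1) + Real.log y ^ CB * e ≤
          3 * (1 / (w : ℝ) + (ρ - 1) + Real.log y ^ C * e) := by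
        have : 0 ≤ Real.log y ^ C * e := by positivity
        rw [h2]
        linarith
      calc CB * ((T : ℝ) * (K * B)) * (1 / (w : ℝ) + (ρ - 1) + Real.log y ^ CB * e)
          ≤ CB * ((T : ℝ) * (K * B)) * (3 * (1 / (w : ℝ) + (ρ - 1) + Real.log y ^ C * e)) :=
            mul_le_mul_of_nonneg_left h3 (by positivity)
        _ = 3 * (CB * K) * ((T : ℝ) * B) * (1 / (w : ℝ) + (ρ - 1) + Real.log y ^ C * e) := by ring
        _ ≤ C * ((T : ℝ) * B) * (1 / (w : ℝ) + (ρ - 1) + Real.log y ^ C * e) := by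
            apply mul_le_mul_of_nonneg_right
            · exact mul_le_mul_of_nonneg_right hCB3 hTB
            · have : 0 ≤ Real.log y ^ C * e := by positivity
              linarith
    · have hly : 1 ≤ Real.log y := by
        rw [Real.le_log_iff_exp_le (by positivity)]
        have h1 := Real.exp_one_lt_d9
        have h2 : (3 : ℝ) ≤ y := by exact_mod_cast hy3
        linarith
      have hl : Real.log y ^ CB ≤ Real.log y ^ C := Real.rpow_le_rpow_of_exponent_le hly hCCB
      have hl0 : 0 ≤ Real.log y ^ CB := Real.rpow_nonneg (by linarith) _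
      have h3 : 1 / (w : ℝ) + (ρ - 1) + Real.log y ^ CB * e ≤
          1 / (w : ℝ) + (ρ - 1) + Real.log y ^ C * e := by
        have := mul_le_mul_of_nonneg_right hl he0.le
        linarith
      have h4 : 0 ≤ 1 / (w : ℝ) + (ρ - 1) + Real.log y ^ CB * e := by
        have : 0 ≤ Real.log y ^ CB * e := by positivity
        linarith
      calc CB * ((T : ℝ) * (K * B)) * (1 / (w : ℝ) + (ρ - 1) + Real.log y ^ CB * e)
          ≤ CB * ((T : ℝ) * (K * B)) * (1 / (w : ℝ) + (ρ - 1) + Real.log y ^ C * e) :=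
            mul_le_mul_of_nonneg_left h3 (by positivity)
        _ = (CB * K) * ((T : ℝ) * B) * (1 / (w : ℝ) + (ρ - 1) + Real.log y ^ C * e) := by ring
        _ ≤ C * ((T : ℝ) * B) * (1 / (w : ℝ) + (ρ - 1) + Real.log y ^ C * e) := by
            apply mul_le_mul_of_nonneg_right _ (h4.trans h3)
            apply mul_le_mul_of_nonneg_right _ hTB
            linarith
  · -- the first factor
    apply mul_le_mul_of_nonneg_right _ (Real.sqrt_nonneg _)
    apply Real.sqrt_le_sqrt
    have hV0 := VW_pos w y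
    have hAA : ∀ M ∈ (PP w y).divisors.filter (fun M => M ≤ M0), ∀ j ∈ Wn ρ M,
        AA W w y ρ T (K * B) M j ≤ C0 * (K * ((T : ℝ) * B)) * (VW w y ^ 2 * (1 / (Nat.totient M : ℝ))) := by
      intro M hM j hj
      rw [mem_filter, Nat.mem_divisors] at hM
      have hMpos : 1 ≤ M := Nat.pos_of_dvd_of_pos hM.1.1 (PP_pos w y)
      obtain ⟨r1, r2, -, r3, r4, r5, -⟩ := hR B (by omega) T M0 M j ρ hT1 hT2 hM0kR hMpos hM.2 hρ hρ2 hj
      unfold AA
      set X := ⌊(T : ℝ) / ρ ^ (j + 1)⌋₊ with hX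
      set Y := ⌊((K * B : ℕ) : ℝ) * ρ ^ (j + 1) / M⌋₊ with hY
      have hX1 : 1 ≤ X := by
        by_contra hcon
        have h0 : X = 0 := by omega
        rw [h0, zero_pow (by omega)] at r1
        omega
      have hY1 : 1 ≤ Y := by
        by_contra hcon
        have h0 : Y = 0 := by omega
        rw [h0, zero_pow (by omega)] at r3
        omega
      have hMk : M ^ k ≤ B := (Nat.pow_le_pow_left hM.2 k).trans hM0k
      have h1 := hU1 w y M X 0 Y (by omega) hwy hyk hMk hM.1.1
        (r1.trans (Nat.pow_le_pow_right hX1 (by omega)))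
        ((r2.trans hT2).trans (Nat.pow_le_pow_right hB1 (by omega)))
        (Nat.zero_le _)
        (by
          rw [Nat.sub_zero]
          exact r3.trans (Nat.pow_le_pow_right hY1 (by omega)))
        (r4.trans (Nat.pow_le_pow_right hB1 (by omega)))
      have h2 : ∑ x ∈ Icc 1 X, ∑ t ∈ Icc 1 Y, rg w y x * rg w y t * W (M * x * t) =
          ∑ x ∈ Icc 1 X, ∑ t ∈ Ioc 0 Y, rg w y x * rg w y t * W (M * x * t) :=
        sum_congr rfl fun x _ => sum_Icc_Ioc Y fun t => rg w y x * rg w y t * W (M * x * t)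
      rw [h2]
      refine h1.trans ?_
      have hMr : (0 : ℝ) < M := by exact_mod_cast hMpos
      have hφM : (0 : ℝ) < Nat.totient M := by exact_mod_cast Nat.totient_pos.2 hMpos
      have h3 : (X : ℝ) * ((Y : ℝ) - ((0 : ℕ) : ℝ)) ≤ T * (K * B) / M := by
        push_cast
        rw [sub_zero]
        exact r5
      calc C0 * ((M : ℝ) / Nat.totient M) * VW w y ^ 2 * ((X : ℝ) * ((Y : ℝ) - ((0 : ℕ) : ℝ)))
          ≤ C0 * ((M : ℝ) / Nat.totient M) * VW w y ^ 2 * (T * (K * B) / M) :=
            mul_le_mul_of_nonneg_left h3 (by positivity)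
        _ = C0 * (K * ((T : ℝ) * B)) * (VW w y ^ 2 * (1 / (Nat.totient M : ℝ))) := by
            field_simp
    have hek := hEK w y ρ hw hwy hρ hρ2
    calc ∑ M ∈ (PP w y).divisors.filter (fun M => M ≤ M0), ∑ j ∈ Wn ρ M, AA W w y ρ T (K * B) M j
        ≤ ∑ M ∈ (PP w y).divisors.filter (fun M => M ≤ M0), ∑ _j ∈ Wn ρ M,
            C0 * (K * ((T : ℝ) * B)) * (VW w y ^ 2 * (1 / (Nat.totient M : ℝ))) :=
          sum_le_sum fun M hM => sum_le_sum fun j hj => hAA M hM j hj
      _ ≤ ∑ M ∈ (PP w y).divisors, ∑ _j ∈ Wn ρ M,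
            C0 * (K * ((T : ℝ) * B)) * (VW w y ^ 2 * (1 / (Nat.totient M : ℝ))) := by
          apply sum_le_sum_of_subset_of_nonneg (filter_subset _ _)
          intro M _ _
          exact sum_nonneg fun _ _ => by positivity
      _ = C0 * (K * ((T : ℝ) * B)) *
            (VW w y ^ 2 * ∑ M ∈ (PP w y).divisors, ((Wn ρ M).card : ℝ) / (Nat.totient M : ℝ)) := by
          rw [mul_sum, mul_sum]
          refine sum_congr rfl fun M _ => ?_
          rw [sum_const, nsmul_eq_mul]
          ring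
      _ ≤ C0 * (K * ((T : ℝ) * B)) *
            (CE * (ρ - 1) ^ (-(1 / 2) : ℝ) * Real.log w ^ (3 / 5 : ℝ) * Real.log y ^ (-(1 / 12) : ℝ)) :=
          mul_le_mul_of_nonneg_left hek (by positivity)
      _ = C0 * K * CE * ((T : ℝ) * B) *
            ((ρ - 1) ^ (-(1 / 2) : ℝ) * Real.log w ^ (3 / 5 : ℝ) * Real.log y ^ (-(1 / 12) : ℝ)) := by
          ring
      _ ≤ C * ((T : ℝ) * B) *
            ((ρ - 1) ^ (-(1 / 2) : ℝ) * Real.log w ^ (3 / 5 : ℝ) * Real.log y ^ (-(1 / 12) : ℝ)) := by
          apply mul_le_mul_of_nonneg_right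
          · exact mul_le_mul_of_nonneg_right hCE' (by positivity)
          · have a1 : 0 ≤ (ρ - 1) ^ (-(1 / 2) : ℝ) := Real.rpow_nonneg (by linarith) _
            have a2 : 0 ≤ Real.log w ^ (3 / 5 : ℝ) := Real.rpow_nonneg (Real.log_natCast_nonneg _) _
            have a3 : 0 ≤ Real.log y ^ (-(1 / 12) : ℝ) := Real.rpow_nonneg (Real.log_natCast_nonneg _) _
            positivity

end Pool.Agent.N545.QG
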